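import Mathlib
import Pool.Agent.H26.Walsh3

set_option autoImplicit false

open MeasureTheory Finset Pool.Agent.H26.Walsh
open scoped NNReal

namespace Pool.Agent.Results.MP_d27c5e_an.Answer

noncomputable def U (α : ℝ) (n : ℕ) (f : ℕ → G → ℝ) (x : G) : ℝ :=
  (∑ k ∈ Icc 1 n, (k : ℝ) ^ (α - 1))⁻¹ * ∑ k ∈ Icc 1 n, ((n : ℝ) + 1 - k) ^ (α - 1) * S f k x

theorem result (α : ℝ) (h0 : 0 < α) (h1 : α < 1) :
    ¬ ∃ C : ℝ≥0, ∀ f : ℕ → G → ℝ, Martingale f F mu → Hp (1 / (1 + α)) f < ⊤ → ∀ n : ℕ,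
      H26.Walsh.Lp (1 / (1 + α)) (U α (2 ^ n) f) ≤ C * Hp (1 / (1 + α)) f := by
  have hb : 0 < 1 - α := by linarith
  have inv : ∀ x : ℝ, 0 < x → x ^ (α - 1) = (x ^ (1 - α))⁻¹ := fun x hx => by
    rw [← Real.rpow_neg hx.le, neg_sub]
  have key := core (c := 1 - α) (K := α⁻¹) h0 h1 hb (q := fun j => (j + 1 : ℝ) ^ (α - 1))
    (e := fun j => (1 - α) * (j + 1 : ℝ) ^ (α - 1))
    (Q := fun n => ∑ k ∈ Icc 1 n, (k : ℝ) ^ (α - 1))
    (fun a b hab => mul_le_mul_of_nonneg_left (Real.rpow_le_rpow_of_nonpos (by positivity)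
      (by exact_mod_cast Nat.succ_le_succ hab) (by linarith)) hb.le)
    (fun j => by
      have k1 := bern hb.le (by linarith) (show (0 : ℝ) ≤ j + 1 by positivity)
      have a0 : 0 < ((j : ℝ) + 1) ^ (1 - α) := by positivity
      have a1 : 0 < ((j : ℝ) + 1 + 1) ^ (1 - α) := by positivity
      push_cast
      rw [inv _ (by positivity), inv _ (by positivity)]
      generalize ((j : ℝ) + 1) ^ (1 - α) = u at *
      generalize ((j : ℝ) + 1 + 1) ^ (1 - α) = v at *
      have k2 : u * (j + 2) ≤ v * (j + 2 - (1 - α)) := by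
        have := mul_le_mul_of_nonneg_right k1 (show (0 : ℝ) ≤ j + 2 by positivity)
        refine this.trans_eq ?_
        field_simp
        ring
      rw [← sub_nonneg]
      have e : ((j : ℝ) + 2) * (u⁻¹ - v⁻¹) - (1 - α) * u⁻¹ =
          (v * (j + 2 - (1 - α)) - u * (j + 2)) / (u * v) := by field_simp; ring
      rw [e]
      exact div_nonneg (by linarith) (by positivity))
    (fun j => by
      have j0 : (0 : ℝ) < j + 1 := by positivity
      have k1 := rpow_one_add_le_one_add_mul_self (s := 1 / ((j : ℝ) + 1))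
        (le_trans (by norm_num) (by positivity : (0 : ℝ) ≤ _)) hb.le (by linarith)
      have k2 : ((j : ℝ) + 1 + 1) ^ (1 - α) = (j + 1) ^ (1 - α) * (1 + 1 / (j + 1)) ^ (1 - α) := by
        rw [← Real.mul_rpow j0.le (by positivity)]
        congr 1
        field_simp
      have a0 : 0 < ((j : ℝ) + 1) ^ (1 - α) := by positivity
      have a1 : 0 < (1 + 1 / ((j : ℝ) + 1)) ^ (1 - α) := by positivity
      push_cast
      rw [inv _ j0, inv _ (by positivity), k2]
      generalize ((j : ℝ) + 1) ^ (1 - α) = u at *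
      generalize (1 + 1 / ((j : ℝ) + 1)) ^ (1 - α) = v at *
      have k3 : (v - 1) * (j + 1) ≤ 1 - α := by
        have := mul_le_mul_of_nonneg_right (sub_le_sub_right k1 1) j0.le
        refine this.trans_eq ?_
        field_simp
        ring
      rw [← sub_nonneg]
      have e : (1 - α) * u⁻¹ - ((j : ℝ) + 1) * (u⁻¹ - (u * v)⁻¹) =
          ((1 - α) * v - (v - 1) * (j + 1)) / (u * v) := by field_simp
      rw [e]
      refine div_nonneg ?_ (by positivity)
      by_cases hv : 1 ≤ v
      · nlinarith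
      · nlinarith [mul_pos hb a1, mul_pos (show 0 < 1 - v by linarith) j0])
    (fun j => le_rfl)
    (fun n hn => sum_pos (fun k hk => Real.rpow_pos_of_pos (by exact_mod_cast (mem_Icc.1 hk).1) _)
      ⟨1, mem_Icc.2 ⟨le_rfl, hn⟩⟩)
    (fun n hn => by
      clear hn
      induction n with
      | zero => simp [h0.ne']
      | succ n ih =>
        rw [sum_Icc_succ_top (by omega)]
        have k1 := bern h0.le h1.le (show (0 : ℝ) ≤ n by positivity)
        push_cast
        rw [Real.rpow_sub_one (by positivity)]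
        have k2 := mul_le_mul_of_nonneg_left k1 (inv_pos.2 h0).le
        have e : α⁻¹ * (((n : ℝ) + 1) ^ α * (1 - α / (n + 1))) =
            α⁻¹ * (n + 1) ^ α - (n + 1) ^ α / (n + 1) := by field_simp
        linarith)
  convert key using 9 with C f _ _ n
  funext x
  rw [U]
  congr 1
  refine sum_congr rfl fun k hk => ?_
  rw [Nat.cast_sub (mem_Icc.1 hk).2]
  congr 2
  ring

end Pool.Agent.Results.MP_d27c5e_an.Answer
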